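import Pool.Agent.W171.LG.Close

/-! # Absolute convergence of Lenstra's density for every group of positive rank -/

set_option autoImplicit false
set_option linter.unusedSectionVars false

namespace Pool.Agent.X208.LR

open NumberField Filter Topology Finset IntermediateField
open Pool.Agent.W401.Cheb
open Pool.Agent.W171.LG
open Pool.Agent.H981R3.LN (ql Qn Qn_dvd Qn_pos)
open Pool.Agent.H730R2.AA.Euler (summable_bound sqrt_le_totient)

/-- an element of infinite order is an `r`-th power for finitely many `r` only -/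
lemma exists_val {w : ℚˣ} (hw : ¬ IsOfFinOrder w) : ∃ h0 : ℕ, 0 < h0 ∧
    ∀ r : ℕ, r.Prime → ¬ r ∣ h0 → ∀ c : ℚ, c ^ r ≠ (w : ℚ) := by
  have hw0 : (w : ℚ) ≠ 0 := w.ne_zero
  have key : ∃ p : ℕ, p.Prime ∧ padicValRat p (w : ℚ) ≠ 0 := by
    by_contra hcon
    push Not at hcon
    apply hw
    have h1 : (w : ℚ).den = 1 := by
      by_contra h
      obtain ⟨p, hp, hpd⟩ := Nat.exists_prime_and_dvd h
      have : Fact p.Prime := ⟨hp⟩
      have h2 := (un_iff (p := p) hw0).2 (hcon p hp)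
      exact h2.2 ((ZMod.natCast_eq_zero_iff _ _).2 hpd)
    have h2 : (w : ℚ).num.natAbs = 1 := by
      by_contra h
      obtain ⟨p, hp, hpd⟩ := Nat.exists_prime_and_dvd h
      have : Fact p.Prime := ⟨hp⟩
      have h2 := (un_iff (p := p) hw0).2 (hcon p hp)
      exact h2.1 ((ZMod.intCast_zmod_eq_zero_iff_dvd _ _).2 (Int.natCast_dvd.2 hpd))
    rw [isOfFinOrder_iff_pow_eq_one]
    refine ⟨2, by norm_num, ?_⟩
    apply Units.ext
    rw [Units.val_pow_eq_pow_val, Units.val_one]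
    have h3 : (w : ℚ) = ((w : ℚ).num : ℚ) := by
      conv_lhs => rw [← Rat.num_div_den (w : ℚ)]
      rw [h1]
      simp
    rcases Int.natAbs_eq_iff.1 h2 with h | h
    · rw [h3, h]
      norm_num
    · rw [h3, h]
      norm_num
  obtain ⟨p, hp, hv⟩ := key
  have : Fact p.Prime := ⟨hp⟩
  refine ⟨(padicValRat p (w : ℚ)).natAbs, Int.natAbs_pos.2 hv, fun r hr hrd c hc => hrd ?_⟩
  have hc0 : c ≠ 0 := by
    rintro rfl
    rw [zero_pow hr.ne_zero] at hc
    exact hw0 hc.symm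
  have h1 : padicValRat p (w : ℚ) = r * padicValRat p c := by
    rw [← hc, padicValRat.pow]
  rw [h1]
  exact Int.natCast_dvd.1 (Dvd.intro _ rfl)

section
variable {W : Subgroup ℚˣ}

/-- lower bound for the degree of a field of roots -/
theorem low_deg' (F : IntermediateField ℚ QA) [NumberField F] [IsGalois ℚ F] (hW : W.FG) {u : ℚˣ}
    (hu : u ∈ W) {q e : ℕ} (hur : ∀ r : ℕ, r.Prime → r ∣ e → ∀ c : ℚ, c ^ r ≠ (u : ℚ))
    (hq : 0 < q) (he : e ∣ q) (h2 : ¬ 2 ∣ e) :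
    Nat.totient q * e ≤ Module.finrank ℚ (F ⊔ Lf QA W q : IntermediateField ℚ QA) := by
  have : NeZero q := ⟨hq.ne'⟩
  have he0 : 0 < e := Nat.pos_of_dvd_of_pos he hq
  obtain ⟨ζ, hζ⟩ := HasEnoughRootsOfUnity.exists_primitiveRoot QA q
  obtain ⟨α, hα⟩ := IsAlgClosed.exists_pow_nat_eq (algebraMap ℚ QA (u : ℚ)) he0
  have hcdeg : ∀ (m : ℕ), 0 < m → ∀ ξ : QA, IsPrimitiveRoot ξ m →
      Module.finrank ℚ (adjoin ℚ {ξ} : IntermediateField ℚ QA) = Nat.totient m := by
    intro m hm ξ hξ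
    have hint : IsIntegral ℚ ξ := by
      have h1 : IsIntegral ℤ ξ := hξ.isIntegral hm
      exact h1.tower_top
    rw [adjoin.finrank hint, ← Polynomial.cyclotomic_eq_minpoly_rat hξ hm,
      Polynomial.natDegree_cyclotomic]
  have key := cyc_rad (k := ℚ) (Ω := QA) hq he hζ u.ne_zero hα (fun r hr hre ξ hξ h => by
      rw [hcdeg r hr.pos ξ hξ, Nat.totient_prime hr] at h
      have hr2 : r ≠ 2 := by
        rintro rfl
        exact h2 hre
      have hr3 : 3 ≤ r := by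
        have := hr.two_le
        omega
      obtain ⟨t, ht⟩ := h
      rcases Nat.lt_or_ge t 2 with h3 | h3
      · have : t = 0 ∨ t = 1 := by omega
        rcases this with rfl | rfl <;> omega
      · have : (r - 1) * 2 ≤ (r - 1) * t := Nat.mul_le_mul_left _ h3
        omega)
    (fun r hr hre => hur r hr hre)
  rw [hcdeg q hq ζ hζ] at key
  rw [← key]
  have hfin := supF_fin F hW hq
  have hle : adjoin ℚ {ζ} ⊔ adjoin ℚ {α} ≤ F ⊔ Lf QA W q := by
    refine (sup_le ?_ ?_).trans le_sup_right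
    · rw [adjoin_le_iff, Set.singleton_subset_iff]
      exact root_one_mem W hζ.pow_eq_one
    · rw [adjoin_le_iff, Set.singleton_subset_iff]
      obtain ⟨t, rfl⟩ := he
      refine subset_adjoin _ _ ⟨u ^ t, W.pow_mem hu t, ?_⟩
      rw [pow_mul, hα, Units.val_pow_eq_pow_val, map_pow]
  exact Submodule.finrank_mono (s := (adjoin ℚ {ζ} ⊔ adjoin ℚ {α} : IntermediateField ℚ QA).toSubmodule)
    (t := (F ⊔ Lf QA W q).toSubmodule) hle

end

section
variable (F : IntermediateField ℚ QA) [NumberField F] [IsGalois ℚ F] (C : Set Gal(F/ℚ))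
  {W : Subgroup ℚˣ}

lemma tW_bound' (hW : W.FG) {u : ℚˣ} (hu : u ∈ W) {h0 : ℕ} (h00 : 0 < h0)
    (hur : ∀ r : ℕ, r.Prime → ¬ r ∣ h0 → ∀ c : ℚ, c ^ r ≠ (u : ℚ)) (k n : ℕ) :
    ‖tW F C W k n‖ ≤ 2 * h0 * (Nat.card Gal(F/ℚ) : ℝ) * (2 * (1 / (n : ℝ) ^ (3 / 2 : ℝ))) := by
  rw [Real.norm_eq_abs]
  by_cases hs : Squarefree n
  · have hn : 0 < n := Nat.pos_of_ne_zero hs.ne_zero
    have hn0 : (0 : ℝ) < n := by exact_mod_cast hn
    unfold tW
    set Q := Qn k n with hQ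
    have hQ0 : 0 < Q := Qn_pos k n
    have hnQ : n ∣ Q := Qn_dvd k n hs
    -- the part prime to `2 h0`
    obtain ⟨e, he, hcop, hne⟩ : ∃ e : ℕ, e ∣ n ∧ Nat.Coprime e (2 * h0) ∧ n ≤ 2 * h0 * e := by
      refine ⟨n / n.gcd (2 * h0), Nat.div_dvd_of_dvd (Nat.gcd_dvd_left _ _), ?_, ?_⟩
      · have hg : n.gcd (2 * h0) ∣ n := Nat.gcd_dvd_left _ _
        obtain ⟨e, he⟩ := hg
        have hg0 : 0 < n.gcd (2 * h0) := Nat.gcd_pos_of_pos_left _ hn
        rw [show n / n.gcd (2 * h0) = e from Nat.div_eq_of_eq_mul_right hg0 he]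
        rw [Nat.coprime_iff_gcd_eq_one]
        by_contra hcon
        obtain ⟨r, hr, hrd⟩ := Nat.exists_prime_and_dvd hcon
        have h1 : r ∣ e := hrd.trans (Nat.gcd_dvd_left _ _)
        have h2 : r ∣ 2 * h0 := hrd.trans (Nat.gcd_dvd_right _ _)
        have h3 : r ∣ n := by
          rw [he]
          exact Dvd.dvd.mul_left h1 _
        have h4 : r ∣ n.gcd (2 * h0) := Nat.dvd_gcd h3 h2
        have h5 : r * r ∣ n := by
          conv_rhs => rw [he]
          exact Nat.mul_dvd_mul h4 h1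
        have := Nat.isUnit_iff.1 (hs r h5)
        exact hr.ne_one this
      · have h1 : n.gcd (2 * h0) ≤ 2 * h0 := Nat.le_of_dvd (by positivity) (Nat.gcd_dvd_right _ _)
        calc n = n.gcd (2 * h0) * (n / n.gcd (2 * h0)) :=
              (Nat.mul_div_cancel' (Nat.gcd_dvd_left _ _)).symm
          _ ≤ _ := Nat.mul_le_mul_right _ h1
    have he2 : ¬ 2 ∣ e := by
      intro h
      have h1 : 2 ∣ Nat.gcd e (2 * h0) := Nat.dvd_gcd h (Dvd.intro _ rfl)
      rw [hcop] at h1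
      omega
    have heu : ∀ r : ℕ, r.Prime → r ∣ e → ∀ c : ℚ, c ^ r ≠ (u : ℚ) := by
      intro r hr hre
      refine hur r hr fun hrh => ?_
      have h1 : r ∣ Nat.gcd e (2 * h0) := Nat.dvd_gcd hre (Dvd.dvd.mul_left hrh _)
      rw [hcop] at h1
      exact hr.one_lt.ne' (Nat.dvd_one.1 h1)
    set d := Module.finrank ℚ (F ⊔ Lf QA W Q : IntermediateField ℚ QA) with hd
    have hdt : Nat.totient Q * e ≤ d := low_deg' F hW hu heu hQ0 (he.trans hnQ) he2
    have ht : Nat.totient n ≤ Nat.totient Q :=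
      Nat.le_of_dvd (Nat.totient_pos.2 hQ0) (Nat.totient_dvd_of_dvd hnQ)
    have ht0 : 0 < Nat.totient n := Nat.totient_pos.2 hn
    have h1 : |((ArithmeticFunction.moebius n : ℤ) : ℝ)| ≤ 1 := by
      exact_mod_cast ArithmeticFunction.abs_moebius_le_one (n := n)
    have h2 : (cE F C (Lf QA W Q) : ℝ) ≤ (Nat.card Gal(F/ℚ) : ℝ) := by
      exact_mod_cast cE_le F C _
    have h3 := sqrt_le_totient n hn
    have h4 : (n : ℝ) ≤ 2 * h0 * e := by exact_mod_cast hne
    have h5 : (Nat.totient Q : ℝ) * e ≤ d := by exact_mod_cast hdt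
    have h5' : (Nat.totient n : ℝ) ≤ Nat.totient Q := by exact_mod_cast ht
    have h6 : (0 : ℝ) < Nat.totient n := by exact_mod_cast ht0
    have h7 : (n : ℝ) ^ (3 / 2 : ℝ) = n * Real.sqrt n := by
      rw [show (3 / 2 : ℝ) = 1 + 1 / 2 by norm_num, Real.rpow_add hn0, Real.rpow_one,
        ← Real.sqrt_eq_rpow]
    have hs0 : 0 < Real.sqrt n := Real.sqrt_pos.mpr hn0
    have hh : (0 : ℝ) < h0 := by exact_mod_cast h00
    have h8 : (n : ℝ) * Real.sqrt n ≤ 4 * h0 * (d : ℝ) := by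
      calc (n : ℝ) * Real.sqrt n ≤ (2 * h0 * e) * (2 * Nat.totient n) := by gcongr
        _ ≤ (2 * h0 * e) * (2 * Nat.totient Q) := by gcongr
        _ = 4 * h0 * (Nat.totient Q * e) := by ring
        _ ≤ _ := by gcongr
    have h9 : (0 : ℝ) < (d : ℝ) := by
      have h10 : (0 : ℝ) < n * Real.sqrt n := by positivity
      have h11 : (0 : ℝ) < 4 * h0 * (d : ℝ) := lt_of_lt_of_le h10 h8
      exact (pos_iff_pos_of_mul_pos h11).1 (by positivity)
    rw [abs_div, abs_of_pos h9, abs_mul, Nat.abs_cast, h7]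
    rw [div_le_iff₀ h9]
    have hc0 : (0 : ℝ) ≤ cE F C (Lf QA W Q) := Nat.cast_nonneg _
    have hA0 : (0 : ℝ) ≤ Nat.card Gal(F/ℚ) := Nat.cast_nonneg _
    calc |((ArithmeticFunction.moebius n : ℤ) : ℝ)| * (cE F C (Lf QA W Q) : ℝ)
        ≤ 1 * Nat.card Gal(F/ℚ) := by gcongr
      _ = Nat.card Gal(F/ℚ) := one_mul _
      _ = Nat.card Gal(F/ℚ) * (1 / (n * Real.sqrt n) * (n * Real.sqrt n)) := by field_simp
      _ ≤ Nat.card Gal(F/ℚ) * (1 / (n * Real.sqrt n) * (4 * h0 * (d : ℝ))) := by gcongr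
      _ = _ := by ring
  · have h0' : tW F C W k n = 0 := by
      unfold tW
      rw [ArithmeticFunction.moebius_eq_zero_of_not_squarefree hs]
      simp
    rw [h0', abs_zero]
    positivity

lemma tW_summable' (hW : W.FG) (hr : ∃ w ∈ W, ¬ IsOfFinOrder w) (k : ℕ) :
    Summable (tW F C W k) := by
  obtain ⟨w, hw, hw1⟩ := hr
  obtain ⟨h0, h00, h01⟩ := exists_val hw1
  exact Summable.of_norm_bounded (summable_bound.mul_left _) (tW_bound' F C hW hw h00 h01 k)

end

end Pool.Agent.X208.LR
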