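import Pool.Agent.X208.LR.Tight

/-! # Tightness and slowly growing functions -/

set_option autoImplicit false
set_option linter.unusedSectionVars false

namespace Pool.Agent.X208.LR

open NumberField Filter Topology Finset
open Pool.Agent.W401.Cheb
open Pool.Agent.W171.LG

open Classical in
/-- for every function which tends to infinity the index is smaller for almost all primes -/
def Slow (W : Subgroup ℚˣ) : Prop := ∀ f : ℕ → ℕ, Tendsto f atTop atTop →
  Tendsto (M fun p => if f p < idx W p then 1 else 0) atTop (𝓝 0)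

open Classical in
theorem tight_slow {W : Subgroup ℚˣ} (h : Tight W) : Slow W := by
  intro f hf
  rw [Metric.tendsto_atTop]
  intro ε hε
  obtain ⟨B, hB⟩ := h (ε / 4) (by positivity)
  obtain ⟨p0, hp0⟩ := eventually_atTop.1 (tendsto_atTop.1 hf B)
  have hdiff := M_congr_tendsto (D := p0.factorial) (Nat.factorial_pos _)
    (a := fun p => if f p < idx W p then (1 : ℝ) else 0)
    (b := fun p => if p ∣ p0.factorial then (0 : ℝ) else (if f p < idx W p then 1 else 0))
    (fun p _ hpD => by rw [if_neg hpD])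
  have hdiff2 := (Metric.tendsto_nhds.1 hdiff) (ε / 4) (by positivity)
  obtain ⟨x0, hx0⟩ := eventually_atTop.1 (hB.and hdiff2)
  refine ⟨x0, fun x hx => ?_⟩
  obtain ⟨h1, h2⟩ := hx0 x hx
  have h3 : M (fun p => if p ∣ p0.factorial then (0 : ℝ) else (if f p < idx W p then 1 else 0)) x ≤
      M (fun p => if B < idx W p then 1 else 0) x := by
    refine M_mono (fun p hp => ?_) x
    by_cases hpD : p ∣ p0.factorial
    · rw [if_pos hpD]
      split_ifs <;> norm_num
    · rw [if_neg hpD]
      have hpp : p0 ≤ p := by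
        by_contra hcon
        exact hpD (Nat.dvd_factorial hp.pos (by omega))
      have hfB := hp0 p hpp
      by_cases h5 : f p < idx W p
      · rw [if_pos h5, if_pos (by omega)]
      · rw [if_neg h5]
        split_ifs <;> norm_num
  have h4 : 0 ≤ M (fun p => if f p < idx W p then (1 : ℝ) else 0) x :=
    M_nonneg (fun p _ => by split_ifs <;> norm_num) x
  rw [Real.dist_eq, sub_zero, abs_lt] at h2
  rw [Real.dist_eq, sub_zero, abs_of_nonneg h4]
  linarith [h2.1, h2.2]

open Classical in
theorem slow_tight {W : Subgroup ℚˣ} (h : Slow W) : Tight W := by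
  by_contra hcon
  unfold Tight at hcon
  push Not at hcon
  obtain ⟨ε, hε, hB⟩ := hcon
  have hX : ∀ B N : ℕ, ∃ x : ℕ, N ≤ x ∧ ε < M (fun p => if B < idx W p then (1 : ℝ) else 0) x := by
    intro B N
    by_contra h1
    push Not at h1
    apply hB B
    exact eventually_atTop.2 ⟨N, fun x hx => not_lt.2 (h1 x hx)⟩
  choose g hg1 hg2 using hX
  let X : ℕ → ℕ := fun n => Nat.rec (g 0 0) (fun B r => g (B + 1) (r + 1)) n
  have hX1 : ∀ B, X B < X (B + 1) := fun B => hg1 (B + 1) (X B + 1)
  have hX2 : ∀ B, ε < M (fun p => if B < idx W p then (1 : ℝ) else 0) (X B) := by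
    intro B
    cases B with
    | zero => exact hg2 0 0
    | succ B => exact hg2 (B + 1) (X B + 1)
  have hXm : StrictMono X := strictMono_nat_of_lt_succ hX1
  have hex : ∀ p : ℕ, ∃ B : ℕ, p ≤ X B := fun p => ⟨p, hXm.le_apply⟩
  obtain ⟨f, hf1, hf3⟩ : ∃ f : ℕ → ℕ, (∀ p B : ℕ, p ≤ X B → f p ≤ B) ∧ ∀ p, p ≤ X (f p) := by
    classical
    exact ⟨fun p => Nat.find (hex p), fun p B h => Nat.find_min' (hex p) h,
      fun p => Nat.find_spec (hex p)⟩
  have hf2 : Tendsto f atTop atTop := by
    rw [tendsto_atTop]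
    intro b
    filter_upwards [eventually_gt_atTop (X b)] with p hp
    by_contra hcon
    have h1 : p ≤ X (f p) := hf3 p
    have h2 : X (f p) ≤ X b := hXm.monotone (by omega)
    omega
  have h1 := h f hf2
  have h2 := (Metric.tendsto_nhds.1 h1) ε hε
  obtain ⟨B, hB1⟩ := ((hXm.tendsto_atTop).eventually h2).exists
  rw [Real.dist_eq, sub_zero] at hB1
  have h3 : M (fun p => if B < idx W p then (1 : ℝ) else 0) (X B) ≤
      M (fun p => if f p < idx W p then (1 : ℝ) else 0) (X B) := by
    unfold M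
    refine div_le_div_of_nonneg_right (Finset.sum_le_sum fun p hp => ?_) (Nat.cast_nonneg _)
    have h4 := hf1 p B (mem_pr.1 hp).1
    by_cases h5 : B < idx W p
    · rw [if_pos h5, if_pos (by omega)]
    · rw [if_neg h5]
      split_ifs <;> norm_num
  have h4 := hX2 B
  have h5 := le_abs_self (M (fun p => if f p < idx W p then (1 : ℝ) else 0) (X B))
  linarith

/-- almost all primes satisfy the trivial Frobenius condition -/
lemma gf_bot : ∃ D : ℕ, 0 < D ∧ ∀ p : ℕ, p.Prime → ¬ p ∣ D →
    GF (⊥ : IntermediateField ℚ QA) Set.univ p := by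
  obtain ⟨D, hD, hT⟩ := torsor (⊥ : IntermediateField ℚ QA)
  refine ⟨D, hD, fun p hp hpD => ?_⟩
  have : Fact p.Prime := ⟨hp⟩
  have hTp := hT p hpD
  obtain ⟨φ⟩ := nonempty_hom hTp
  obtain ⟨τ, hτ⟩ := exists_frob hTp φ
  rw [GF_iff Set.univ hp]
  exact ⟨inferInstance, φ, τ, hτ, Set.mem_univ _⟩

open Classical in
lemma cover_bot (F : IntermediateField ℚ QA) [NumberField F] (C : Set Gal(F/ℚ)) (ε : ℝ)
    (hε : 0 < ε) : ∀ᶠ x : ℕ in atTop, M (fun p => if GF F C p ∧
      ∀ i ∈ ({()} : Finset Unit), ¬ GF (⊥ : IntermediateField ℚ QA) Set.univ p then 1 else 0) x ≤ ε := by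
  obtain ⟨D, hD, hT⟩ := gf_bot
  have h := M_congr (D := D) hD (a := fun p => if GF F C p ∧
      ∀ i ∈ ({()} : Finset Unit), ¬ GF (⊥ : IntermediateField ℚ QA) Set.univ p then 1 else 0)
    (b := fun _ => 0) (fun p hp hpD => if_neg fun h => h.2 () (Finset.mem_singleton_self _) (hT p hp hpD))
    (c := 0) (by
      have : (M fun _ => (0 : ℝ)) = fun _ => 0 := by
        funext x
        unfold M
        simp
      rw [this]
      exact tendsto_const_nhds)
  filter_upwards [(Metric.tendsto_nhds.1 h) ε hε] with x hx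
  rw [Real.dist_eq, sub_zero] at hx
  exact (le_abs_self _).trans hx.le

end Pool.Agent.X208.LR
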