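import Pool.Agent.X208.LR.Tr

/-! # The law and the tightness of the index -/

set_option autoImplicit false
set_option linter.unusedSectionVars false

namespace Pool.Agent.X208.LR

open NumberField Filter Topology Finset IntermediateField
open Pool.Agent.W401.Cheb
open Pool.Agent.W171.LG
open Pool.Agent.H386R2.Artin (PP LC_pos)
open Pool.Agent.H981R3.LN (ql Sk mem_Sk mem_PP Sk_dvd Sk_prime Qn Qn_dvd Qn_pos)
open Pool.Agent.H730R2.AA.Euler (summable_bound sqrt_le_totient)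

/-- the index of `W` modulo `p` -/
noncomputable def idx (W : Subgroup ℚˣ) (p : ℕ) : ℕ :=
  (Subgroup.closure {u : (ZMod p)ˣ | ∃ w ∈ W,
    (((w : ℚ).num : ℤ) : ZMod p) = (u : ZMod p) * (((w : ℚ).den : ℕ) : ZMod p)}).index

lemma idx_pos (W : Subgroup ℚˣ) (p : ℕ) [Fact p.Prime] : 0 < idx W p :=
  Nat.pos_of_ne_zero Subgroup.index_ne_zero_of_finite

lemma dvd_idx {W : Subgroup ℚˣ} {p l : ℕ} [Fact p.Prime] (hU : UnW W p) (h : PW W l p) :
    l ∣ idx W p := by
  unfold idx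
  rw [index_dvd_iff _ h.1]
  refine pow_closure fun u hu => ?_
  obtain ⟨w, hw, hu⟩ := hu
  have h1 : (u : ZMod p) = rd p (w : ℚ) := by
    unfold rd
    rw [hu, mul_assoc, mul_inv_cancel₀ (hU w hw).2, mul_one]
  apply Units.ext
  rw [Units.val_pow_eq_pow_val, Units.val_one, h1]
  exact h.2 w hw

open Classical in
/-- the index is bounded outside sets of primes of small density -/
def Tight (W : Subgroup ℚˣ) : Prop := ∀ ε : ℝ, 0 < ε → ∃ B : ℕ, ∀ᶠ x : ℕ in atTop,
  M (fun p => if B < idx W p then 1 else 0) x ≤ ε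

theorem tight_law {W : Subgroup ℚˣ} (hT : Tight W) (hW : W.FG)
    {F : IntermediateField ℚ QA} [NumberField F] [IsGalois ℚ F] {C : Set Gal(F/ℚ)}
    (hC : ∀ σ ∈ C, ∀ τ : Gal(F/ℚ), τ * σ * τ⁻¹ ∈ C) {V : Subgroup ℚˣ} (hV : V.FG)
    (hVr : ∃ w ∈ V, ¬ IsOfFinOrder w) {k n : ℕ} (hk : k ≠ 0)
    (hn : 0 < n) (hnW : ∀ w ∈ W, w ^ n ∈ V) : Law' F C V k := by
  classical
  refine law_of hC hV hVr hk fun ε hε => ?_
  obtain ⟨B, hB⟩ := hT (ε / 2) (by positivity)
  refine ⟨max (max k n) B, ?_⟩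
  set L := max (max k n) B with hL
  have hkL : k ≤ L := (le_max_left _ _).trans (le_max_left _ _)
  have hnL : n ≤ L := (le_max_right _ _).trans (le_max_left _ _)
  have hBL : B ≤ L := le_max_right _ _
  obtain ⟨D1, hD1, hU1⟩ := exists_unW hV
  obtain ⟨D2, hD2, hU2⟩ := exists_unW hW
  have hpt : ∀ p : ℕ, p.Prime → (if p ∣ D1 * D2 then (0 : ℝ) else
      (if Df F C V k L p then 1 else 0)) ≤ (if B < idx W p then 1 else 0) := by
    intro p hp
    have : Fact p.Prime := ⟨hp⟩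
    by_cases hpD : p ∣ D1 * D2
    · rw [if_pos hpD]
      split_ifs <;> norm_num
    rw [if_neg hpD]
    have hUV : UnW V p := hU1 p fun h => hpD (Dvd.dvd.mul_right h _)
    have hUW : UnW W p := hU2 p fun h => hpD (Dvd.dvd.mul_left h _)
    by_cases hD : Df F C V k L p
    swap
    · rw [if_neg hD]
      split_ifs <;> norm_num
    rw [if_pos hD]
    obtain ⟨l, hl, hlL, hlV⟩ := Df_large hk hkL hUV hD
    have h1 : PW W l p := PW_small hUW hn hnW hl (lt_of_le_of_lt hnL hlL) hlV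
    have h2 := Nat.le_of_dvd (idx_pos W p) (dvd_idx hUW h1)
    rw [if_pos (by omega)]
  have hdiff := M_congr_tendsto (D := D1 * D2) (by positivity)
    (a := fun p => if Df F C V k L p then (1 : ℝ) else 0)
    (b := fun p => if p ∣ D1 * D2 then (0 : ℝ) else (if Df F C V k L p then 1 else 0))
    (fun p _ hpD => by rw [if_neg hpD])
  have hdiff2 := (Metric.tendsto_nhds.1 hdiff) (ε / 2) (by positivity)
  filter_upwards [hB, hdiff2] with x h1 h2
  rw [Real.dist_eq, sub_zero, abs_lt] at h2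
  have h4 := M_mono hpt x
  linarith [h2.1, h2.2]

instance nfb : NumberField (⊥ : IntermediateField ℚ QA) where
  to_charZero := inferInstance
  to_finiteDimensional := Module.finite_of_finrank_eq_succ (n := 0) IntermediateField.finrank_bot

instance galb : IsGalois ℚ (⊥ : IntermediateField ℚ QA) := isGalois_bot

lemma card_gal_bot : Nat.card Gal((⊥ : IntermediateField ℚ QA)/ℚ) = 1 := by
  rw [IsGalois.card_aut_eq_finrank]
  exact IntermediateField.finrank_bot

lemma Lf_one (W : Subgroup ℚˣ) : Lf QA W 1 = ⊥ := by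
  unfold Lf
  rw [adjoin_eq_bot_iff]
  rintro z ⟨w, hw, hz⟩
  rw [pow_one] at hz
  rw [hz]
  exact IntermediateField.algebraMap_mem _ _

lemma tW_one (W : Subgroup ℚˣ) (k : ℕ) :
    tW (⊥ : IntermediateField ℚ QA) Set.univ W k 1 = 1 := by
  have hQ : Qn k 1 = 1 := by
    unfold Qn
    simp
  have hsub : Subsingleton Gal((⊥ : IntermediateField ℚ QA)/ℚ) :=
    (Nat.card_eq_one_iff_unique.1 card_gal_bot).1
  have h1 : cE (⊥ : IntermediateField ℚ QA) Set.univ (Lf QA W 1) = 1 := by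
    unfold cE
    rw [Nat.card_eq_one_iff_unique]
    refine ⟨⟨fun a b => Subtype.ext (Subsingleton.elim _ _)⟩, ⟨⟨1, Set.mem_univ _, fun y _ => rfl⟩⟩⟩
  have h2 : Module.finrank ℚ ((⊥ : IntermediateField ℚ QA) ⊔ Lf QA W 1 : IntermediateField ℚ QA) = 1 := by
    rw [Lf_one, sup_bot_eq]
    exact IntermediateField.finrank_bot
  unfold tW
  rw [hQ, h1, h2]
  simp

lemma abs_tW_le {W : Subgroup ℚˣ} (hW : W.FG) (k n : ℕ) :
    |tW (⊥ : IntermediateField ℚ QA) Set.univ W k n| ≤ 1 / (Nat.totient (Qn k n) : ℝ) := by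
  have hQ0 : 0 < Qn k n := Qn_pos k n
  have h1 := totient_le_sup (⊥ : IntermediateField ℚ QA) hW hQ0
  have h2 : cE (⊥ : IntermediateField ℚ QA) Set.univ (Lf QA W (Qn k n)) ≤ 1 := by
    refine (cE_le _ _ _).trans ?_
    rw [card_gal_bot]
  have h3 : |((ArithmeticFunction.moebius n : ℤ) : ℝ)| ≤ 1 := by
    exact_mod_cast ArithmeticFunction.abs_moebius_le_one (n := n)
  have h4 : (0 : ℝ) < Nat.totient (Qn k n) := by exact_mod_cast Nat.totient_pos.2 hQ0
  have h5 : (Nat.totient (Qn k n) : ℝ) ≤ (Module.finrank ℚ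
      ((⊥ : IntermediateField ℚ QA) ⊔ Lf QA W (Qn k n) : IntermediateField ℚ QA) : ℝ) := by
    exact_mod_cast h1
  have h6 : (cE (⊥ : IntermediateField ℚ QA) Set.univ (Lf QA W (Qn k n)) : ℝ) ≤ 1 := by
    exact_mod_cast h2
  unfold tW
  rw [abs_div, abs_mul, Nat.abs_cast, Nat.abs_cast]
  refine div_le_div₀ zero_le_one ?_ h4 h5
  calc |((ArithmeticFunction.moebius n : ℤ) : ℝ)| *
        (cE (⊥ : IntermediateField ℚ QA) Set.univ (Lf QA W (Qn k n)) : ℝ) ≤ 1 * 1 := by gcongr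
    _ = 1 := one_mul 1

/-- Lenstra's density tends to `1` when `k` becomes more divisible -/
lemma delta_one {W : Subgroup ℚˣ} (hW : W.FG) (hr : ∃ w ∈ W, ¬ IsOfFinOrder w) (ε : ℝ)
    (hε : 0 < ε) : ∃ k0 : ℕ, k0 ≠ 0 ∧ ∀ k : ℕ, k ≠ 0 → k0 ∣ k →
      1 - ε ≤ ∑' n : ℕ, tW (⊥ : IntermediateField ℚ QA) Set.univ W k n := by
  have hsum := tW_summable' (⊥ : IntermediateField ℚ QA) Set.univ hW hr
  obtain ⟨w, hw, hw1⟩ := hr
  obtain ⟨h0, h00, h01⟩ := exists_val hw1
  have hb := tW_bound' (⊥ : IntermediateField ℚ QA) Set.univ hW hw h00 h01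
  set K : ℝ := 2 * h0 * (Nat.card Gal((⊥ : IntermediateField ℚ QA)/ℚ) : ℝ) with hK
  set g : ℕ → ℝ := fun n => K * (2 * (1 / (n : ℝ) ^ (3 / 2 : ℝ))) with hg
  have hgs : Summable g := summable_bound.mul_left _
  have h1 := (Metric.tendsto_nhds.1 (tendsto_sum_nat_add g)) (ε / 2) (by positivity)
  obtain ⟨N, hN, hN2⟩ := (h1.and (eventually_ge_atTop 2)).exists
  rw [Real.dist_eq, sub_zero] at hN
  -- the exponent
  obtain ⟨j, hj⟩ := pow_unbounded_of_one_lt ((4 * N / ε) ^ 2) (one_lt_two : (1 : ℝ) < 2)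
  refine ⟨(N.factorial) ^ j, pow_ne_zero _ (Nat.factorial_ne_zero N), fun k hk hkk => ?_⟩
  rw [← Summable.sum_add_tsum_nat_add N (hsum k)]
  have htail : |∑' n : ℕ, tW (⊥ : IntermediateField ℚ QA) Set.univ W k (n + N)| ≤ ε / 2 := by
    have hs1 : Summable fun n => g (n + N) := (summable_nat_add_iff N).2 hgs
    have h2 : ‖∑' n : ℕ, tW (⊥ : IntermediateField ℚ QA) Set.univ W k (n + N)‖ ≤
        ∑' n : ℕ, g (n + N) := tsum_of_norm_bounded hs1.hasSum fun n => hb k (n + N)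
    rw [Real.norm_eq_abs] at h2
    exact h2.trans ((le_abs_self _).trans hN.le)
  have hterm : ∀ n ∈ (Finset.range N).erase 1,
      |tW (⊥ : IntermediateField ℚ QA) Set.univ W k n| ≤ ε / (2 * N) := by
    intro n hn
    rw [Finset.mem_erase, Finset.mem_range] at hn
    obtain ⟨hn1, hnN⟩ := hn
    rcases Nat.eq_zero_or_pos n with rfl | hn0
    · have : tW (⊥ : IntermediateField ℚ QA) Set.univ W k 0 = 0 := by
        unfold tW
        simp
      rw [this, abs_zero]
      positivity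
    refine (abs_tW_le hW k n).trans ?_
    obtain ⟨l, hl, hln⟩ := Nat.exists_prime_and_dvd hn1
    have hlN : l ≤ N := (Nat.le_of_dvd hn0 hln).trans hnN.le
    have h3 : l ^ j ∣ k := (pow_dvd_pow_of_dvd (Nat.dvd_factorial hl.pos hlN) j).trans hkk
    have h4 : j ≤ k.factorization l := (hl.pow_dvd_iff_le_factorization hk).1 h3
    have h5 : ql k l ∣ Qn k n := by
      unfold Qn
      exact Finset.dvd_prod_of_mem _ (Nat.mem_primeFactors.2 ⟨hl, hln, hn0.ne'⟩)
    have h6 : 2 ^ j ≤ Qn k n := by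
      refine le_trans ?_ (Nat.le_of_dvd (Qn_pos k n) h5)
      unfold ql
      calc 2 ^ j ≤ l ^ j := Nat.pow_le_pow_left hl.two_le j
        _ ≤ l ^ (k.factorization l + 1) := Nat.pow_le_pow_right hl.pos (by omega)
    have h7 : (2 : ℝ) ^ j ≤ Qn k n := by exact_mod_cast h6
    have hN0 : (0 : ℝ) < N := by
      have : (2 : ℝ) ≤ N := by exact_mod_cast hN2
      linarith
    have h8 : 4 * N / ε ≤ Real.sqrt (Qn k n) := by
      apply Real.le_sqrt_of_sq_le
      linarith
    have h9 := sqrt_le_totient (Qn k n) (Qn_pos k n)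
    have h10 : 2 * N / ε ≤ (Nat.totient (Qn k n) : ℝ) := by
      have : 4 * N / ε = 2 * (2 * N / ε) := by ring
      linarith
    calc 1 / (Nat.totient (Qn k n) : ℝ) ≤ 1 / (2 * N / ε) :=
          one_div_le_one_div_of_le (by positivity) h10
      _ = ε / (2 * N) := by field_simp
  have hmain : |∑ n ∈ (Finset.range N).erase 1, tW (⊥ : IntermediateField ℚ QA) Set.univ W k n| ≤
      ε / 2 := by
    refine (Finset.abs_sum_le_sum_abs _ _).trans ?_
    have hN0 : (0 : ℝ) < N := by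
      have : (2 : ℝ) ≤ N := by exact_mod_cast hN2
      linarith
    calc ∑ n ∈ (Finset.range N).erase 1, |tW (⊥ : IntermediateField ℚ QA) Set.univ W k n|
        ≤ ∑ _n ∈ (Finset.range N).erase 1, ε / (2 * N) := Finset.sum_le_sum hterm
      _ = #((Finset.range N).erase 1) * (ε / (2 * N)) := by rw [Finset.sum_const, nsmul_eq_mul]
      _ ≤ N * (ε / (2 * N)) := by
          have : #((Finset.range N).erase 1) ≤ N := by
            refine (Finset.card_erase_le).trans ?_
            rw [Finset.card_range]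
          have h' : (#((Finset.range N).erase 1) : ℝ) ≤ N := by exact_mod_cast this
          gcongr
      _ = ε / 2 := by field_simp
  have h1N : 1 ∈ Finset.range N := by
    rw [Finset.mem_range]
    omega
  rw [← Finset.add_sum_erase _ _ h1N, tW_one]
  rw [abs_le] at htail hmain
  linarith [htail.1, hmain.1]

open Classical in
theorem law_tight {W : Subgroup ℚˣ} (hW : W.FG) (hr : ∃ w ∈ W, ¬ IsOfFinOrder w)
    (h : ∀ k0 : ℕ, k0 ≠ 0 → ∃ k : ℕ, k ≠ 0 ∧ k0 ∣ k ∧
      Law' (⊥ : IntermediateField ℚ QA) Set.univ W k) : Tight W := by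
  intro ε hε
  obtain ⟨k0, hk0, hk1⟩ := delta_one hW hr (ε / 2) (by positivity)
  obtain ⟨k, hk, hkk, hlaw⟩ := h k0 hk0
  have h1 := hk1 k hk hkk
  refine ⟨k, ?_⟩
  have h2 := (Metric.tendsto_nhds.1 hlaw) (ε / 4) (by positivity)
  have h3 := (Metric.tendsto_nhds.1 M_one) (ε / 4) (by positivity)
  filter_upwards [h2, h3] with x h4 h5
  have h6 : M (fun p => (if k < idx W p then (1 : ℝ) else 0) +
      (if LC (⊥ : IntermediateField ℚ QA) Set.univ k W p then 1 else 0)) x ≤ M (fun _ => 1) x := by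
    refine M_mono (fun p hp => ?_) x
    by_cases h7 : k < idx W p
    · have h8 : ¬ LC (⊥ : IntermediateField ℚ QA) Set.univ k W p := fun h9 => by
        have h10 : idx W p ∣ k := h9.2.2
        exact absurd (Nat.le_of_dvd (Nat.pos_of_ne_zero hk) h10) (by omega)
      rw [if_pos h7, if_neg h8, add_zero]
    · rw [if_neg h7, zero_add]
      split_ifs <;> norm_num
  rw [M_add] at h6
  rw [Real.dist_eq, abs_lt] at h4 h5
  linarith [h4.1, h4.2, h5.1, h5.2]

end Pool.Agent.X208.LR
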