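import Pool.Agent.X208.LR.Trunc

/-! # Transfer between commensurable groups -/

set_option autoImplicit false
set_option linter.unusedSectionVars false

namespace Pool.Agent.X208.LR

open NumberField Filter Topology Finset IntermediateField
open Pool.Agent.W401.Cheb
open Pool.Agent.W171.LG
open Pool.Agent.H386R2.Artin (PP LC_pos)
open Pool.Agent.H981R3.LN (ql Sk mem_Sk mem_PP Sk_dvd Sk_prime)

section
variable {p : ℕ} [Fact p.Prime]

lemma rd_pow {w : ℚˣ} (h : Un p (w : ℚ)) (n : ℕ) : rd p ((w ^ n : ℚˣ) : ℚ) = rd p (w : ℚ) ^ n ∧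
    Un p ((w ^ n : ℚˣ) : ℚ) := by
  induction n with
  | zero =>
    rw [pow_zero, pow_zero, Units.val_one]
    exact ⟨rd_one, by constructor <;> simp⟩
  | succ n ih =>
    have h1 : Un p (((w ^ n : ℚˣ) : ℚ) * (w : ℚ)) := un_mul ih.2 h
    rw [pow_succ, pow_succ, Units.val_mul]
    exact ⟨by rw [rd_mul ih.2 h h1, ih.1], h1⟩

lemma pow_tr {x : ZMod p} (hx : x ≠ 0) {A B m : ℕ} (hA : A ∣ p - 1) (hB : B ∣ A) (hB0 : 0 < B)
    (hg : Nat.gcd m A ∣ A / B) (h : x ^ (m * ((p - 1) / A)) = 1) : x ^ ((p - 1) / B) = 1 := by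
  have hp1 : 0 < p - 1 := LC_pos
  obtain ⟨t, ht⟩ := hA
  obtain ⟨s, hs⟩ := hB
  have hA0 : 0 < A := Nat.pos_of_ne_zero (by
    rintro rfl
    rw [zero_mul] at ht
    omega)
  have h1 : (p - 1) / A = t := by rw [ht, Nat.mul_div_cancel_left _ hA0]
  have h2 : A / B = s := by rw [hs, Nat.mul_div_cancel_left _ hB0]
  have h3 : (p - 1) / B = s * t := by
    rw [ht, hs, mul_assoc, Nat.mul_div_cancel_left _ hB0]
  rw [h1] at h
  rw [h2] at hg
  rw [h3]
  have h4 : x ^ (A * t) = 1 := by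
    rw [← ht]
    exact ZMod.pow_card_sub_one_eq_one hx
  have h5 : orderOf x ∣ m * t := orderOf_dvd_of_pow_eq_one h
  have h6 : orderOf x ∣ A * t := orderOf_dvd_of_pow_eq_one h4
  have h7 : orderOf x ∣ Nat.gcd (m * t) (A * t) := Nat.dvd_gcd h5 h6
  rw [Nat.gcd_mul_right] at h7
  exact orderOf_dvd_iff_pow_eq_one.1 (h7.trans (Nat.mul_dvd_mul hg dvd_rfl))

/-- if the `m`-th powers of the elements of `V` lie in `W` -/
lemma PW_tr {V W : Subgroup ℚˣ} {A B m : ℕ} (hU : UnW V p) (hm : ∀ v ∈ V, v ^ m ∈ W)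
    (hB : B ∣ A) (hB0 : 0 < B) (hg : Nat.gcd m A ∣ A / B) (h : PW W A p) : PW V B p := by
  refine ⟨hB.trans h.1, fun v hv => ?_⟩
  have h1 := h.2 _ (hm v hv)
  rw [(rd_pow (hU v hv) m).1, ← pow_mul] at h1
  exact pow_tr (rd_ne (hU v hv)) h.1 hB hB0 hg h1

end

lemma gcd_cond {k k' m l : ℕ} (hl : l.Prime) (hk : k ≠ 0) (h : k' * m ∣ k) :
    Nat.gcd m (ql k l) ∣ ql k l / ql k' l := by
  have hk' : k' ≠ 0 := by
    rintro rfl
    rw [zero_mul, Nat.zero_dvd] at h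
    exact hk h
  have hm : m ≠ 0 := by
    rintro rfl
    rw [mul_zero, Nat.zero_dvd] at h
    exact hk h
  have h1 : k'.factorization l + m.factorization l ≤ k.factorization l := by
    have := (Nat.factorization_le_iff_dvd (mul_ne_zero hk' hm) hk).2 h l
    rwa [Nat.factorization_mul hk' hm, Finsupp.add_apply] at this
  unfold ql
  rw [Nat.pow_div (by omega) hl.pos]
  obtain ⟨j, hj1, hj2⟩ := (Nat.dvd_prime_pow hl).1 (Nat.gcd_dvd_right m (l ^ (k.factorization l + 1)))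
  rw [hj2]
  have h3 : l ^ j ∣ m := by
    rw [← hj2]
    exact Nat.gcd_dvd_left _ _
  have h4 : j ≤ m.factorization l := (hl.pow_dvd_iff_le_factorization hm).1 h3
  exact pow_dvd_pow l (by omega)

lemma ql_dvd {k k' m l : ℕ} (hl : l.Prime) (hk : k ≠ 0) (h : k' * m ∣ k) : ql k' l ∣ ql k l := by
  have hk' : k' ∣ k := (Dvd.intro _ rfl).trans h
  have hk'0 : k' ≠ 0 := by
    rintro rfl
    rw [Nat.zero_dvd] at hk'
    exact hk hk'
  unfold ql
  refine pow_dvd_pow l ?_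
  have := (Nat.factorization_le_iff_dvd hk'0 hk).2 hk' l
  omega

lemma ql_pos {k l : ℕ} (hl : l.Prime) : 0 < ql k l := by
  unfold ql
  exact pow_pos hl.pos _

lemma ql_big {k l : ℕ} (hk : k ≠ 0) (h : k < l) : ql k l = l := by
  unfold ql
  rw [Nat.factorization_eq_zero_of_lt h]
  simp

/-- a prime in the defect has a large prime with a power residue condition -/
lemma Df_large {F : IntermediateField ℚ QA} [NumberField F] [IsGalois ℚ F] {C : Set Gal(F/ℚ)}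
    {W : Subgroup ℚˣ} {k L p : ℕ} [Fact p.Prime] (hk : k ≠ 0) (hkL : k ≤ L) (hU : UnW W p)
    (h : Df F C W k L p) : ∃ l : ℕ, l.Prime ∧ L < l ∧ PW W l p := by
  obtain ⟨⟨h1, h2⟩, h3⟩ := h
  have h4 : ¬ IdxC W k p := fun h => h3 ⟨h1, (unW_iff W).1 hU, h⟩
  rw [idx_iff hU hk] at h4
  push Not at h4
  obtain ⟨l, hl, hl2⟩ := h4
  have hlp := Sk_prime hl
  have hlL : L < l := by
    by_contra hcon
    exact h2 l (mem_PP.2 ⟨not_lt.1 hcon, hlp⟩) hl2
  refine ⟨l, hlp, hlL, ?_⟩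
  rwa [ql_big hk (lt_of_le_of_lt hkL hlL)] at hl2

lemma PW_small {V W : Subgroup ℚˣ} {n l p : ℕ} [Fact p.Prime] (hU : UnW W p)
    (hn : 0 < n) (hnW : ∀ w ∈ W, w ^ n ∈ V) (hl : l.Prime) (hnl : n < l) (h : PW V l p) :
    PW W l p := by
  refine PW_tr hU hnW dvd_rfl hl.pos ?_ h
  have h1 : Nat.gcd n l = 1 := by
    rw [Nat.gcd_comm]
    exact (Nat.Prime.coprime_iff_not_dvd hl).2 fun h => absurd (Nat.le_of_dvd hn h) (by omega)
  rw [h1]
  exact one_dvd _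

section
variable {F F' : IntermediateField ℚ QA} [NumberField F] [IsGalois ℚ F] [NumberField F']
  [IsGalois ℚ F'] {C : Set Gal(F/ℚ)} {C' : Set Gal(F'/ℚ)} {V W : Subgroup ℚˣ} {k k' : ℕ}

/-- **comparison of the defects** -/
lemma Df_sub {m n L p : ℕ} [Fact p.Prime] (hk : k ≠ 0) (h : k' * m ∣ k) (hm : ∀ v ∈ V, v ^ m ∈ W)
    (hn : 0 < n) (hnW : ∀ w ∈ W, w ^ n ∈ V) (hkL : k ≤ L) (hnL : n ≤ L)
    (hUV : UnW V p) (hUW : UnW W p) (hG : GF F' C' p) (hD : Df F C V k' L p) :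
    Df F' C' W k L p := by
  have hk'k : k' ∣ k := (Dvd.intro _ rfl).trans h
  have hk' : k' ≠ 0 := by
    rintro rfl
    rw [Nat.zero_dvd] at hk'k
    exact hk hk'k
  have hk'L : k' ≤ L := (Nat.le_of_dvd (Nat.pos_of_ne_zero hk) hk'k).trans hkL
  obtain ⟨l, hl, hlL, hlV⟩ := Df_large hk' hk'L hUV hD
  refine ⟨⟨hG, fun r hr hP => ?_⟩, fun hLC => ?_⟩
  · have hrp := (mem_PP.1 hr).2
    exact hD.1.2 r hr (PW_tr hUV hm (ql_dvd hrp hk h) (ql_pos hrp) (gcd_cond hrp hk h) hP)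
  · have h1 : PW W l p := PW_small hUW hn hnW hl (lt_of_le_of_lt hnL hlL) hlV
    have h2 := hLC.2.2
    rw [idx_iff hUW hk] at h2
    have e : ql k l = l := ql_big hk (lt_of_le_of_lt hkL hlL)
    refine h2 l ((mem_Sk (LC_pos (p := p)).ne').2 ⟨hl, ?_⟩) ?_
    · rw [e]
      exact h1.1
    · rw [e]
      exact h1

end

open Classical in
/-- **the law is inherited** -/
theorem master {ι : Type} (Fi : ι → IntermediateField ℚ QA) [∀ i, NumberField (Fi i)]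
    [∀ i, IsGalois ℚ (Fi i)] (Ci : ∀ i, Set Gal(Fi i/ℚ))
    (hCi : ∀ i, ∀ σ ∈ Ci i, ∀ τ : Gal(Fi i/ℚ), τ * σ * τ⁻¹ ∈ Ci i)
    {W : Subgroup ℚˣ} (hW : W.FG) (hWr : ∃ w ∈ W, ¬ IsOfFinOrder w) {k : ℕ} (hk : k ≠ 0)
    (hlaw : ∀ i, Law' (Fi i) (Ci i) W k)
    {F : IntermediateField ℚ QA} [NumberField F] [IsGalois ℚ F] {C : Set Gal(F/ℚ)}
    (hC : ∀ σ ∈ C, ∀ τ : Gal(F/ℚ), τ * σ * τ⁻¹ ∈ C) {V : Subgroup ℚˣ} (hV : V.FG)
    (hVr : ∃ w ∈ V, ¬ IsOfFinOrder w) {k' m n : ℕ} (hkm : k' * m ∣ k)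
    (hm : ∀ v ∈ V, v ^ m ∈ W) (hn : 0 < n) (hnW : ∀ w ∈ W, w ^ n ∈ V)
    (hcov : ∀ ε : ℝ, 0 < ε → ∃ J : Finset ι, ∀ᶠ x : ℕ in atTop,
      M (fun p => if GF F C p ∧ ∀ i ∈ J, ¬ GF (Fi i) (Ci i) p then 1 else 0) x ≤ ε) :
    Law' F C V k' := by
  have hk' : k' ≠ 0 := by
    rintro rfl
    rw [zero_mul, Nat.zero_dvd] at hkm
    exact hk hkm
  refine law_of hC hV hVr hk' fun ε hε => ?_
  obtain ⟨J, hJ⟩ := hcov (ε / 4) (by positivity)
  have hc : (0 : ℝ) < ε / (4 * (#J + 1)) := by positivity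
  choose L0 hL0 using fun i => law_to (hCi i) hW hWr hk (hlaw i) _ hc
  refine ⟨max (max k n) (J.sup L0), ?_⟩
  set L := max (max k n) (J.sup L0) with hL
  have hkL : k ≤ L := (le_max_left _ _).trans (le_max_left _ _)
  have hnL : n ≤ L := (le_max_right _ _).trans (le_max_left _ _)
  obtain ⟨D1, hD1, hU1⟩ := exists_unW hV
  obtain ⟨D2, hD2, hU2⟩ := exists_unW hW
  -- away from the exceptional primes
  have hpt : ∀ p : ℕ, p.Prime → (if p ∣ D1 * D2 then (0 : ℝ) else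
      (if Df F C V k' L p then 1 else 0)) ≤
      (if GF F C p ∧ ∀ i ∈ J, ¬ GF (Fi i) (Ci i) p then 1 else 0) +
        ∑ i ∈ J, (if Df (Fi i) (Ci i) W k L p then (1 : ℝ) else 0) := by
    intro p hp
    have : Fact p.Prime := ⟨hp⟩
    have hs : 0 ≤ ∑ i ∈ J, (if Df (Fi i) (Ci i) W k L p then (1 : ℝ) else 0) :=
      Finset.sum_nonneg fun i _ => by split_ifs <;> norm_num
    by_cases hpD : p ∣ D1 * D2
    · rw [if_pos hpD]
      refine add_nonneg ?_ hs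
      split_ifs <;> norm_num
    rw [if_neg hpD]
    have hUV : UnW V p := hU1 p fun h => hpD (Dvd.dvd.mul_right h _)
    have hUW : UnW W p := hU2 p fun h => hpD (Dvd.dvd.mul_left h _)
    by_cases hD : Df F C V k' L p
    swap
    · rw [if_neg hD]
      refine add_nonneg ?_ hs
      split_ifs <;> norm_num
    rw [if_pos hD]
    by_cases hcov : ∀ i ∈ J, ¬ GF (Fi i) (Ci i) p
    · rw [if_pos ⟨hD.1.1, hcov⟩]
      linarith
    · push Not at hcov
      obtain ⟨i, hi, hG⟩ := hcov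
      have h1 : Df (Fi i) (Ci i) W k L p := Df_sub hk hkm hm hn hnW hkL hnL hUV hUW hG hD
      have h2 : (1 : ℝ) ≤ ∑ i ∈ J, (if Df (Fi i) (Ci i) W k L p then (1 : ℝ) else 0) := by
        refine le_trans (le_of_eq ?_) (Finset.single_le_sum (f := fun i =>
          (if Df (Fi i) (Ci i) W k L p then (1 : ℝ) else 0)) (fun i _ => by split_ifs <;> norm_num) hi)
        rw [if_pos h1]
      have h3 : (0 : ℝ) ≤ (if GF F C p ∧ ∀ i ∈ J, ¬ GF (Fi i) (Ci i) p then 1 else 0) := by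
        split_ifs <;> norm_num
      linarith
  have hdiff := M_congr_tendsto (D := D1 * D2) (by positivity)
    (a := fun p => if Df F C V k' L p then (1 : ℝ) else 0)
    (b := fun p => if p ∣ D1 * D2 then (0 : ℝ) else (if Df F C V k' L p then 1 else 0))
    (fun p _ hpD => by rw [if_neg hpD])
  have hdiff2 := (Metric.tendsto_nhds.1 hdiff) (ε / 4) (by positivity)
  have hall : ∀ᶠ x : ℕ in atTop, ∀ i ∈ J,
      M (fun p => if Df (Fi i) (Ci i) W k L p then (1 : ℝ) else 0) x ≤ ε / (4 * (#J + 1)) := by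
    rw [Filter.eventually_all_finset]
    intro i hi
    exact hL0 i L ((Finset.le_sup hi).trans (le_max_right _ _))
  filter_upwards [hJ, hdiff2, hall] with x h1 h2 h3
  rw [Real.dist_eq, sub_zero, abs_lt] at h2
  have h4 : M (fun p => if p ∣ D1 * D2 then (0 : ℝ) else (if Df F C V k' L p then 1 else 0)) x ≤
      M (fun p => (if GF F C p ∧ ∀ i ∈ J, ¬ GF (Fi i) (Ci i) p then 1 else 0) +
        ∑ i ∈ J, (if Df (Fi i) (Ci i) W k L p then (1 : ℝ) else 0)) x := M_mono hpt x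
  rw [M_add, M_sum] at h4
  have h5 : ∑ i ∈ J, M (fun p => if Df (Fi i) (Ci i) W k L p then (1 : ℝ) else 0) x ≤ ε / 4 := by
    calc ∑ i ∈ J, M (fun p => if Df (Fi i) (Ci i) W k L p then (1 : ℝ) else 0) x
        ≤ ∑ _i ∈ J, ε / (4 * (#J + 1)) := Finset.sum_le_sum h3
      _ = #J * (ε / (4 * (#J + 1))) := by rw [Finset.sum_const, nsmul_eq_mul]
      _ ≤ (#J + 1) * (ε / (4 * (#J + 1))) := by
          refine mul_le_mul_of_nonneg_right (by linarith) hc.le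
      _ = ε / 4 := by field_simp
  linarith [h2.1, h2.2]

end Pool.Agent.X208.LR
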