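import Pool.Agent.X208.LR.Deg

/-! # The truncated densities and the defect -/

set_option autoImplicit false
set_option linter.unusedSectionVars false

namespace Pool.Agent.X208.LR

open NumberField Filter Topology Finset IntermediateField
open Pool.Agent.W401.Cheb
open Pool.Agent.W171.LG
open Pool.Agent.H386R2.Artin (PP LC_pos)
open Pool.Agent.H981R3.LN (ql Sk mem_Sk mem_PP Sk_dvd Sk_prime Qn Qn_dvd Qn_pos SL mem_SL prod_ql_pos)
open Pool.Agent.H730R2.AA.Euler (mu_eq_prod)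

section
variable (F : IntermediateField ℚ QA) [NumberField F] [IsGalois ℚ F] (C : Set Gal(F/ℚ))
  (W : Subgroup ℚˣ) (k : ℕ)

open Classical in
lemma dL_eq' (L : ℕ) : dLr F C W ⊥ k (PP L) 0 = ∑ n ∈ SL L, tW F C W k n := by
  have hPP0 : PP 0 = ∅ := by
    ext l
    rw [mem_PP]
    constructor
    · rintro ⟨h1, h2⟩
      have := h2.pos
      omega
    · intro h
      exact absurd h (Finset.notMem_empty _)
  have e0 : dLr F C W ⊥ k (PP L) 0 = ∑ J ∈ (PP L).powerset, (-1 : ℝ) ^ #J *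
      ((cE F C (Lf QA W (∏ l ∈ J, ql k l)) : ℝ) /
          (Module.finrank ℚ (F ⊔ Lf QA W (∏ l ∈ J, ql k l) : IntermediateField ℚ QA) : ℝ)) := by
    unfold dLr
    have hset : (PP 0).powerset.filter (fun K => Disjoint K (PP L)) = {∅} := by
      rw [hPP0, Finset.powerset_empty]
      rw [Finset.filter_true_of_mem]
      intro K hK
      rw [Finset.mem_singleton] at hK
      rw [hK]
      exact Finset.disjoint_empty_left _
    rw [hset, Finset.sum_singleton, Finset.card_empty, pow_zero, one_mul, Finset.prod_empty]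
    rw [Nat.cast_one, div_one, one_mul]
    refine Finset.sum_congr rfl fun J _ => ?_
    congr 1
    have e1 : Lf QA W (∏ l ∈ J, ql k l) ⊔ Lf QA (⊥ : Subgroup ℚˣ) (∏ l ∈ (∅ : Finset ℕ), ql k l) =
        Lf QA W (∏ l ∈ J, ql k l) := by
      rw [Finset.prod_empty, Lf_bot_one, sup_bot_eq]
    exact congrArg (fun E : IntermediateField ℚ QA => (cE F C E : ℝ) /
      (Module.finrank ℚ (F ⊔ E : IntermediateField ℚ QA) : ℝ)) e1
  rw [e0]
  unfold SL
  rw [Finset.sum_image]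
  · refine Finset.sum_congr rfl fun K hK => ?_
    rw [mem_powerset] at hK
    have hp : ∀ l ∈ K, l.Prime := fun l hl => (mem_PP.1 (hK hl)).2
    have h1 : (∏ l ∈ K, l).primeFactors = K := Nat.primeFactors_prod hp
    have hsq : Squarefree (∏ l ∈ K, l) := Pool.Agent.H771R4.AQ.sqf_prod K hp
    have h2 : Qn k (∏ l ∈ K, l) = ∏ l ∈ K, ql k l := by
      unfold Qn
      rw [h1]
    unfold tW
    rw [mu_eq_prod _ hsq, h1, Finset.prod_const, h2]
    rw [mul_div_assoc]
  · intro K hK K' hK' h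
    simp only [Finset.coe_powerset, Set.mem_preimage, Set.mem_powerset_iff, Finset.coe_subset]
      at hK hK'
    have h1 : (∏ l ∈ K, l).primeFactors = K :=
      Nat.primeFactors_prod fun l hl => (mem_PP.1 (hK hl)).2
    have h2 : (∏ l ∈ K', l).primeFactors = K' :=
      Nat.primeFactors_prod fun l hl => (mem_PP.1 (hK' hl)).2
    rw [← h1, ← h2]
    exact congrArg Nat.primeFactors h

open Classical in
/-- the density of the truncated set -/
theorem trunc (hC : ∀ σ ∈ C, ∀ τ : Gal(F/ℚ), τ * σ * τ⁻¹ ∈ C) (hW : W.FG) (L : ℕ) :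
    Tendsto (M fun p => if gd F C W k (PP L) p then 1 else 0) atTop
      (𝓝 (∑ n ∈ SL L, tW F C W k n)) := by
  have h := avg_trunc F C W ⊥ k (PP L) hC hW ⟨∅, by simp⟩ (fun l hl => (mem_PP.1 hl).2) 0
  rw [dL_eq'] at h
  refine M_congr (D := 1) one_pos (fun p hp _ => ?_) h
  have : Fact p.Prime := ⟨hp⟩
  have e : (Tp (⊥ : Subgroup ℚˣ) k (PP L) p).filter (fun l => l ≤ 0) = ∅ := by
    rw [Finset.filter_eq_empty_iff]
    intro l hl h0
    unfold Tp at hl
    have := (Sk_prime (mem_filter.1 hl).1).pos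
    omega
  rw [e]
  simp [gT]

variable {W}

lemma sum_tendsto (hW : W.FG) (hr : ∃ w ∈ W, ¬ IsOfFinOrder w) :
    Tendsto (fun L => ∑ n ∈ SL L, tW F C W k n) atTop (𝓝 (∑' n : ℕ, tW F C W k n)) := by
  classical
  have h := (tW_summable' F C hW hr k).hasSum
  rw [Metric.tendsto_atTop]
  intro ε hε
  have h1 := (Metric.tendsto_nhds.1 h) ε hε
  obtain ⟨s, hs⟩ := (Filter.eventually_atTop.1 h1)
  refine ⟨s.sup id, fun L hL => ?_⟩
  have h2 := hs (SL L ∪ s) subset_union_right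
  have h3 : ∑ n ∈ SL L, tW F C W k n = ∑ n ∈ SL L ∪ s, tW F C W k n := by
    refine Finset.sum_subset subset_union_left fun n hn hn2 => ?_
    rw [Finset.mem_union] at hn
    have hns : n ∈ s := hn.resolve_left hn2
    have hnL : n ≤ L := (Finset.le_sup (f := id) hns).trans hL
    have hsq : ¬ Squarefree n := fun h => hn2 (mem_SL h hnL)
    unfold tW
    rw [ArithmeticFunction.moebius_eq_zero_of_not_squarefree hsq]
    simp
  rw [h3]
  exact h2

variable (W)

/-- the primes which satisfy the conditions up to `L` but not those of Q1 -/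
def Df (L p : ℕ) : Prop := gd F C W k (PP L) p ∧ ¬ LC F C k W p

open Classical in
/-- the law, with mean values over the primes -/
def Law' : Prop := Tendsto (M fun p => if LC F C k W p then 1 else 0) atTop
  (𝓝 (∑' n : ℕ, tW F C W k n))

variable {F C W k}

lemma LC_gd {p : ℕ} [Fact p.Prime] (hk : k ≠ 0) (L : ℕ) (h : LC F C k W p) :
    gd F C W k (PP L) p := by
  obtain ⟨h1, h2, h3⟩ := h
  have hU : UnW W p := (unW_iff W).2 h2
  rw [idx_iff hU hk] at h3
  refine ⟨h1, fun l hl hP => h3 l ?_ hP⟩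
  exact (mem_Sk (LC_pos (p := p)).ne').2 ⟨(mem_PP.1 hl).2, hP.1⟩

open Classical in
lemma gd_eq {p : ℕ} [Fact p.Prime] (hk : k ≠ 0) (L : ℕ) :
    (if gd F C W k (PP L) p then (1 : ℝ) else 0) =
      (if LC F C k W p then 1 else 0) + (if Df F C W k L p then 1 else 0) := by
  by_cases h : LC F C k W p
  · have h1 : ¬ Df F C W k L p := fun h' => h'.2 h
    rw [if_pos (LC_gd hk L h), if_pos h, if_neg h1, add_zero]
  · by_cases h2 : gd F C W k (PP L) p
    · have h1 : Df F C W k L p := ⟨h2, h⟩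
      rw [if_pos h2, if_neg h, if_pos h1, zero_add]
    · have h1 : ¬ Df F C W k L p := fun h' => h2 h'.1
      rw [if_neg h2, if_neg h, if_neg h1, add_zero]

open Classical in
lemma M_gd (hk : k ≠ 0) (L x : ℕ) : M (fun p => if gd F C W k (PP L) p then (1 : ℝ) else 0) x =
    M (fun p => if LC F C k W p then 1 else 0) x + M (fun p => if Df F C W k L p then 1 else 0) x := by
  rw [← M_add]
  unfold M
  congr 1
  refine Finset.sum_congr rfl fun p hp => ?_
  have : Fact p.Prime := ⟨(mem_pr.1 hp).2⟩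
  exact gd_eq hk L

lemma Df_anti {L L' p : ℕ} (h : L ≤ L') (hD : Df F C W k L' p) : Df F C W k L p := by
  refine ⟨⟨hD.1.1, fun l hl => hD.1.2 l ?_⟩, hD.2⟩
  rw [mem_PP] at hl ⊢
  exact ⟨hl.1.trans h, hl.2⟩

open Classical in
lemma M_Df_anti {L L' : ℕ} (h : L ≤ L') (x : ℕ) : M (fun p => if Df F C W k L' p then 1 else 0) x ≤
    M (fun p => if Df F C W k L p then 1 else 0) x := by
  refine M_mono (fun p _ => ?_) x
  split_ifs with h1 h2 h2
  · exact le_rfl
  · exact absurd (Df_anti h h1) h2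
  · exact zero_le_one
  · exact le_rfl

open Classical in
theorem law_of (hC : ∀ σ ∈ C, ∀ τ : Gal(F/ℚ), τ * σ * τ⁻¹ ∈ C) (hW : W.FG)
    (hr : ∃ w ∈ W, ¬ IsOfFinOrder w) (hk : k ≠ 0)
    (h : ∀ ε : ℝ, 0 < ε → ∃ L : ℕ, ∀ᶠ x : ℕ in atTop,
      M (fun p => if Df F C W k L p then 1 else 0) x ≤ ε) : Law' F C W k := by
  unfold Law'
  rw [Metric.tendsto_atTop]
  intro ε hε
  obtain ⟨L0, hL0⟩ := h (ε / 4) (by positivity)
  have h1 := (Metric.tendsto_nhds.1 (sum_tendsto F C k hW hr)) (ε / 4) (by positivity)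
  obtain ⟨L, hL1, hL2⟩ := (h1.and (eventually_ge_atTop L0)).exists
  have h2 := (Metric.tendsto_nhds.1 (trunc F C W k hC hW L)) (ε / 4) (by positivity)
  obtain ⟨x0, hx0⟩ := eventually_atTop.1 (h2.and hL0)
  refine ⟨x0, fun x hx => ?_⟩
  obtain ⟨h3, h4⟩ := hx0 x hx
  have h5 := M_Df_anti (F := F) (C := C) (W := W) (k := k) hL2 x
  have h6 : 0 ≤ M (fun p => if Df F C W k L p then (1 : ℝ) else 0) x :=
    M_nonneg (fun p _ => by split_ifs <;> norm_num) x
  rw [M_gd hk] at h3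
  rw [Real.dist_eq] at hL1 h3 ⊢
  rw [abs_lt] at hL1 h3 ⊢
  constructor <;> linarith [hL1.1, hL1.2, h3.1, h3.2]

open Classical in
theorem law_to (hC : ∀ σ ∈ C, ∀ τ : Gal(F/ℚ), τ * σ * τ⁻¹ ∈ C) (hW : W.FG)
    (hr : ∃ w ∈ W, ¬ IsOfFinOrder w) (hk : k ≠ 0) (h : Law' F C W k) (ε : ℝ) (hε : 0 < ε) :
    ∃ L0 : ℕ, ∀ L : ℕ, L0 ≤ L → ∀ᶠ x : ℕ in atTop,
      M (fun p => if Df F C W k L p then 1 else 0) x ≤ ε := by
  have h1 := (Metric.tendsto_nhds.1 (sum_tendsto F C k hW hr)) (ε / 4) (by positivity)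
  obtain ⟨L0, hL0⟩ := eventually_atTop.1 h1
  refine ⟨L0, fun L hL => ?_⟩
  have h1 := hL0 L hL
  have h2 := (Metric.tendsto_nhds.1 (trunc F C W k hC hW L)) (ε / 4) (by positivity)
  have h3 := (Metric.tendsto_nhds.1 h) (ε / 4) (by positivity)
  filter_upwards [h2, h3] with x h4 h5
  rw [M_gd hk] at h4
  rw [Real.dist_eq] at h1 h4 h5
  rw [abs_lt] at h1 h4 h5
  linarith [h1.1, h1.2, h4.1, h4.2, h5.1, h5.2]

end

end Pool.Agent.X208.LR
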